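import Pool.Agent.helper88.RL.SpecW

set_option autoImplicit false

/-!
# Project RL (MP_16912e_nt), row VNB: near points for the residues `RM k g 1`
-/

namespace Pool.Agent.RL

open Finset Pool.Agent.helper3.FT Pool.Agent.T6 Pool.Agent.RF

/-- the integer vector `(u, v)` as an element of the ring -/
def VNB_U (p : ℤ × ℤ × ℤ × ℤ) : OO := ⟨p.1, p.2.1⟩

/-- `φ P₁ - P₂` -/
def VNB_P (p : ℤ × ℤ × ℤ × ℤ) : OO := ph * (p.2.2.1 : OO) - (p.2.2.2 : OO)

/-- the relations between a near point and its dual point -/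
structure VNB_R (k g E H : OO) (p : ℤ × ℤ × ℤ × ℤ) (e w z : OO) : Prop where
  r1 : H * (g * VNB_U p) - E * g * VNB_P p = k ^ 3 * e
  r2 : star k ^ 3 * star e - 2 * H * star (g * VNB_U p) = k ^ 2 * w
  r3 : w + 2 * ph * star w = k * z
  r4 : 10 * H * (g * VNB_U p) = FF k e z

theorem VNB_U_add (p p' : ℤ × ℤ × ℤ × ℤ) : VNB_U (p + p') = VNB_U p + VNB_U p' := by
  ext <;> simp [VNB_U]

theorem VNB_U_neg (p : ℤ × ℤ × ℤ × ℤ) : VNB_U (-p) = -VNB_U p := by
  ext <;> simp [VNB_U]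

theorem VNB_U_zero : VNB_U 0 = 0 := by
  ext <;> simp [VNB_U]

theorem VNB_P_add (p p' : ℤ × ℤ × ℤ × ℤ) : VNB_P (p + p') = VNB_P p + VNB_P p' := by
  simp only [VNB_P, Prod.fst_add, Prod.snd_add, Int.cast_add]
  ring

theorem VNB_P_neg (p : ℤ × ℤ × ℤ × ℤ) : VNB_P (-p) = -VNB_P p := by
  simp only [VNB_P, Prod.fst_neg, Prod.snd_neg, Int.cast_neg]
  ring

theorem VNB_P_zero : VNB_P 0 = 0 := by
  simp only [VNB_P, Prod.fst_zero, Prod.snd_zero, Int.cast_zero]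
  ring

/-- the relations are linear -/
def VNB_T (k g E H : OO) : AddSubgroup ((ℤ × ℤ × ℤ × ℤ) × OO × OO × OO) where
  carrier := {x | VNB_R k g E H x.1 x.2.1 x.2.2.1 x.2.2.2}
  zero_mem' := by
    refine ⟨?_, ?_, ?_, ?_⟩
    · show H * (g * VNB_U 0) - E * g * VNB_P 0 = k ^ 3 * 0
      rw [VNB_U_zero, VNB_P_zero]
      ring
    · show star k ^ 3 * star (0 : OO) - 2 * H * star (g * VNB_U 0) = k ^ 2 * 0
      rw [VNB_U_zero, mul_zero g, star_zero]
      ring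
    · show (0 : OO) + 2 * ph * star (0 : OO) = k * 0
      rw [star_zero]
      ring
    · show 10 * H * (g * VNB_U 0) = FF k 0 0
      rw [VNB_U_zero, FF, star_zero]
      ring
  add_mem' := by
    rintro ⟨p, e, w, z⟩ ⟨p', e', w', z'⟩ ⟨a1, a2, a3, a4⟩ ⟨b1, b2, b3, b4⟩
    simp only at a1 a2 a3 a4 b1 b2 b3 b4
    refine ⟨?_, ?_, ?_, ?_⟩
    · show H * (g * VNB_U (p + p')) - E * g * VNB_P (p + p') = k ^ 3 * (e + e')
      rw [VNB_U_add, VNB_P_add]
      linear_combination a1 + b1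
    · show star k ^ 3 * star (e + e') - 2 * H * star (g * VNB_U (p + p')) = k ^ 2 * (w + w')
      rw [VNB_U_add, mul_add g, star_add, star_add]
      linear_combination a2 + b2
    · show (w + w') + 2 * ph * star (w + w') = k * (z + z')
      rw [star_add]
      linear_combination a3 + b3
    · show 10 * H * (g * VNB_U (p + p')) = FF k (e + e') (z + z')
      rw [FF] at a4 b4
      rw [VNB_U_add, FF, star_add]
      linear_combination a4 + b4
  neg_mem' := by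
    rintro ⟨p, e, w, z⟩ ⟨a1, a2, a3, a4⟩
    simp only at a1 a2 a3 a4
    refine ⟨?_, ?_, ?_, ?_⟩
    · show H * (g * VNB_U (-p)) - E * g * VNB_P (-p) = k ^ 3 * (-e)
      rw [VNB_U_neg, VNB_P_neg]
      linear_combination -a1
    · show star k ^ 3 * star (-e) - 2 * H * star (g * VNB_U (-p)) = k ^ 2 * (-w)
      rw [VNB_U_neg, mul_neg g, star_neg, star_neg]
      linear_combination -a2
    · show (-w) + 2 * ph * star (-w) = k * (-z)
      rw [star_neg]
      linear_combination -a3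
    · show 10 * H * (g * VNB_U (-p)) = FF k (-e) (-z)
      rw [FF] at a4
      rw [VNB_U_neg, FF, star_neg]
      linear_combination -a4

theorem VNB_inj [IsDomain OO] {k g E H : OO} (hk : k ≠ 0) (hg : g ≠ 0) (hE : E ≠ 0) (hH : H ≠ 0)
    {p : ℤ × ℤ × ℤ × ℤ} {e w z : OO} (h : VNB_R k g E H p e w z) : (e = 0 ∧ z = 0) ↔ p = 0 := by
  obtain ⟨r1, r2, r3, r4⟩ := h
  constructor
  · rintro ⟨rfl, rfl⟩
    have h10 : (10 : OO) ≠ 0 := by norm_num
    have hU : VNB_U p = 0 := by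
      have h1 : (10 * H * g) * VNB_U p = 0 := by
        have h2 := r4
        rw [FF, star_zero] at h2
        linear_combination h2
      exact (mul_eq_zero.1 h1).resolve_left (mul_ne_zero (mul_ne_zero h10 hH) hg)
    have hP : VNB_P p = 0 := by
      have h1 : (E * g) * VNB_P p = 0 := by
        rw [hU] at r1
        linear_combination -r1
      exact (mul_eq_zero.1 h1).resolve_left (mul_ne_zero hE hg)
    have u1 := congrArg QuadraticAlgebra.re hU
    have u2 := congrArg QuadraticAlgebra.im hU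
    have u3 := congrArg QuadraticAlgebra.re hP
    have u4 := congrArg QuadraticAlgebra.im hP
    simp [VNB_U, VNB_P, ph] at u1 u2 u3 u4
    exact Prod.ext u1 (Prod.ext u2 (Prod.ext u4 u3))
  · rintro rfl
    rw [VNB_U_zero, VNB_P_zero] at r1
    have he : e = 0 := by
      have h1 : k ^ 3 * e = 0 := by linear_combination -r1
      exact (mul_eq_zero.1 h1).resolve_left (pow_ne_zero _ hk)
    have hw : w = 0 := by
      rw [he, VNB_U_zero, mul_zero g, star_zero] at r2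
      have h1 : k ^ 2 * w = 0 := by linear_combination -r2
      exact (mul_eq_zero.1 h1).resolve_left (pow_ne_zero _ hk)
    have hz : z = 0 := by
      rw [hw, star_zero] at r3
      have h1 : k * z = 0 := by linear_combination -r3
      exact (mul_eq_zero.1 h1).resolve_left hk
    exact ⟨he, hz⟩

/-- the dual points lie in the lattice -/
theorem VNB_InG {δ r h : ℕ} {k e z U : OO} {t : ℤ} (hδ : δ ∣ h) (hc : Nat.Coprime δ k.im.natAbs)
    (hr : (δ : ℤ) ∣ k.im * r - k.re) (h4 : 10 * ((h : ℤ) * t : OO) * U = FF k e z) :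
    ((δ : ℕ) : OO) ∣ FF ⟨(r : ℤ), 1⟩ e z := by
  obtain ⟨m, hm⟩ := hr
  obtain ⟨h', hh'⟩ := hδ
  have hk : k = (k.im : OO) * (⟨(r : ℤ), 1⟩ : OO) - ((δ : ℕ) : OO) * (m : OO) := by
    have h1 : ((k.im * r - k.re : ℤ) : OO) = ((δ * m : ℤ) : OO) := by rw [hm]
    have h2 : k = (k.im : OO) * (⟨(r : ℤ), 1⟩ : OO) - ((k.im * r - k.re : ℤ) : OO) := by
      ext <;> simp
    rw [h1] at h2
    rw [h2]
    push_cast
    simp
  have hcop : IsCoprime (((δ : ℕ) : OO)) ((k.im : OO) ^ 3) := by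
    have h1 : IsCoprime (δ : ℤ) k.im := by
      rw [Int.isCoprime_iff_gcd_eq_one]
      exact hc
    have h2 := h1.map (Int.castRingHom OO)
    simp only [eq_intCast, Int.cast_natCast] at h2
    exact h2.pow_right
  apply hcop.dvd_of_dvd_mul_left
  have hs : star k = (k.im : OO) * star (⟨(r : ℤ), 1⟩ : OO) - ((δ : ℕ) : OO) * (m : OO) := by
    have h3 := congrArg star hk
    rw [star_sub, star_mul, star_mul, star_intCast, star_natCast, star_intCast] at h3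
    rw [h3]
    ring
  have hh : (h : OO) = ((δ : ℕ) : OO) * (h' : OO) := by
    rw [hh']
    push_cast
    rfl
  rw [FF] at h4 ⊢
  rw [hs] at h4
  obtain ⟨j, hj⟩ : ∃ j : OO, (k.im : OO) = j := ⟨_, rfl⟩
  obtain ⟨K, hK⟩ : ∃ K : OO, K = ⟨(r : ℤ), 1⟩ := ⟨_, rfl⟩
  rw [← hK] at hk h4 ⊢
  obtain ⟨s, hs'⟩ : ∃ s : OO, s = star K := ⟨_, rfl⟩
  rw [← hs'] at h4 ⊢
  rw [hj] at hk h4 ⊢
  obtain ⟨z', hz'⟩ : ∃ z' : OO, z' = star z := ⟨_, rfl⟩
  rw [← hz'] at h4 ⊢
  obtain ⟨f, hf⟩ : ∃ f : OO, f = star ph := ⟨_, rfl⟩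
  rw [← hf] at h4 ⊢
  obtain ⟨D, hD⟩ : ∃ D : OO, D = ((δ : ℕ) : OO) := ⟨_, rfl⟩
  rw [← hD] at hk h4 hh ⊢
  have hh2 : ((h : ℤ) : OO) = D * (h' : OO) := by
    rw [← hh]
    push_cast
    rfl
  rw [hh2] at h4
  rw [hk] at h4
  refine ⟨10 * (h' : OO) * (t : OO) * U + (m : OO) * (5 * e * (3 * (j * K) ^ 2 - 3 * (j * K) * (D * m) + (D * m) ^ 2) +
    2 * f * z * ((j * K) * (2 * (j * s) - D * m) + (j * s - D * m) ^ 2) -
    z' * (3 * (j * s) ^ 2 - 3 * (j * s) * (D * m) + (D * m) ^ 2)), ?_⟩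
  linear_combination -h4

theorem VNB_sizes (x : OO) (c : ℝ) (ha : |va x| ≤ c) (hb : |vb x| ≤ c) : |(x.re : ℝ)| ≤ c ∧ |(x.im : ℝ)| ≤ c := by
  have h5 : √5 * √5 = (5 : ℝ) := Real.mul_self_sqrt (by norm_num)
  have h2 : (2 : ℝ) ≤ √5 := by
    rw [Real.le_sqrt (by norm_num) (by norm_num)]
    norm_num
  have hc : 0 ≤ c := (abs_nonneg _).trans ha
  rw [abs_le] at ha hb
  have h0 : (0 : ℝ) < √5 := by linarith
  have e1 : √5 * (x.im : ℝ) = va x - vb x := by
    rw [va, vb]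
    ring
  have e2 : √5 * (x.re : ℝ) = (1 + √5) / 2 * vb x + (√5 - 1) / 2 * va x := by
    rw [va, vb]
    linear_combination (-(x.im : ℝ) / 2 + (x.im : ℝ) / 2) * h5
  constructor
  · rw [abs_le]
    have p1 : (0 : ℝ) ≤ (1 + √5) / 2 := by linarith
    have p2 : (0 : ℝ) ≤ (√5 - 1) / 2 := by linarith
    have q1 := mul_le_mul_of_nonneg_left hb.1 p1
    have q2 := mul_le_mul_of_nonneg_left hb.2 p1
    have q3 := mul_le_mul_of_nonneg_left ha.1 p2
    have q4 := mul_le_mul_of_nonneg_left ha.2 p2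
    constructor
    · refine le_of_mul_le_mul_left ?_ h0
      rw [e2]
      linarith
    · refine le_of_mul_le_mul_left ?_ h0
      rw [e2]
      linarith
  · rw [abs_le]
    have q5 : 2 * c ≤ √5 * c := mul_le_mul_of_nonneg_right h2 hc
    constructor
    · refine le_of_mul_le_mul_left ?_ h0
      rw [e1]
      linarith
    · refine le_of_mul_le_mul_left ?_ h0
      rw [e1]
      linarith

theorem VNB_lin (a b M : ℝ) (x y : ℤ) (hx : |(x : ℝ)| ≤ a) (hy : |(y : ℝ)| ≤ b) (hM : a + 1.62 * b ≤ M) :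
    |(x : ℝ) + y * ((1 + √5) / 2)| ≤ M ∧ |(x : ℝ) + y * ((1 - √5) / 2)| ≤ M := by
  have h1 : √5 ≤ (2.24 : ℝ) := by
    rw [Real.sqrt_le_left (by norm_num)]
    norm_num
  have h2 : (1 : ℝ) ≤ √5 := by
    rw [Real.le_sqrt (by norm_num) (by norm_num)]
    norm_num
  have hb : 0 ≤ b := (abs_nonneg _).trans hy
  have f1 : |(1 + √5) / 2| ≤ (1.62 : ℝ) := by
    rw [abs_le]
    constructor <;> linarith
  have f2 : |(1 - √5) / 2| ≤ (1.62 : ℝ) := by
    rw [abs_le]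
    constructor <;> linarith
  constructor
  · refine (abs_add_le _ _).trans ?_
    rw [abs_mul]
    have := mul_le_mul hy f1 (abs_nonneg _) hb
    linarith
  · refine (abs_add_le _ _).trans ?_
    rw [abs_mul]
    have := mul_le_mul hy f2 (abs_nonneg _) hb
    linarith

theorem VNB (hVGN : VGN_stmt) (hVDC : VDC_stmt) (hVDM : VDM_stmt) (hVSZ : VSZ_stmt) (h1 : WVA_stmt) (h2 : WEU_stmt)
    (hN4 : N4_stmt) : VNB_stmt := by
  haveI : IsDomain OO := h2.1
  obtain ⟨hma, hmb, had, hin, hst, hno, hnz⟩ := h1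
  obtain ⟨C, hC1, hS⟩ := hVSZ
  refine ⟨234256 + (432 * C) ^ 3, by nlinarith [pow_pos (by linarith : (0 : ℝ) < 432 * C) 3], ?_⟩
  intro Q B l h δ r R k g a hQ hB hl hh hgl hga hgb hKG hRM hδ1 hδh hδc hδr hR
  obtain ⟨q, hq⟩ : ∃ q : ℕ, q = k.norm.natAbs := ⟨_, rfl⟩
  have hQq : Q < q := hq ▸ hKG.lo
  have hqQ : q ≤ 2 * Q := hq ▸ hKG.hi
  have hq1 : 1 ≤ q := by omega
  have hk0 : k ≠ 0 := by
    rintro rfl
    have h3 := hKG.lo
    simp at h3
  have hg0 : g ≠ 0 := by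
    rintro rfl
    simp at hgl
    omega
  have hQr : (1 : ℝ) ≤ Q := by exact_mod_cast hQ
  have hBr : (1 : ℝ) ≤ B := by exact_mod_cast hB
  have hlr : (1 : ℝ) ≤ l := by exact_mod_cast hl
  have hhr : (1 : ℝ) ≤ h := by exact_mod_cast hh
  obtain ⟨ε, hε, hgε⟩ : ∃ ε : ℤ, (ε = 1 ∨ ε = -1) ∧ g.norm = ε * l := by
    rcases Int.natAbs_eq g.norm with h3 | h3
    · exact ⟨1, Or.inl rfl, by rw [one_mul, ← hgl]; exact h3⟩
    · exact ⟨-1, Or.inr rfl, by rw [neg_one_mul, ← hgl]; exact h3⟩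
  have hE0 : (ε : OO) ≠ 0 := by
    rcases hε with rfl | rfl <;> simp
  have hH0 : (((h : ℤ) * (l : ℤ) : ℤ) : OO) ≠ 0 := by
    have h3 : ((h : ℤ) * (l : ℤ)) ≠ 0 := by positivity
    exact_mod_cast h3
  -- the size parameter
  obtain ⟨s, hs⟩ : ∃ s : ℝ, s = √(l : ℝ) := ⟨_, rfl⟩
  have hs0 : 0 < s := by
    rw [hs]
    exact Real.sqrt_pos.2 (by linarith)
  have hss : s * s = l := by
    rw [hs]
    exact Real.mul_self_sqrt (by linarith)
  obtain ⟨W, hW⟩ : ∃ W : ℝ, W = (Q : ℝ) ^ (3 / 2 : ℝ) := ⟨_, rfl⟩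
  have hW0 : 0 < W := by
    rw [hW]
    positivity
  have hWW : W * W = (Q : ℝ) ^ 3 := by
    rw [hW, ← Real.rpow_add (by linarith), ← Real.rpow_natCast]
    norm_num
  have hl32 : (l : ℝ) ^ (3 / 2 : ℝ) = l * s := by
    rw [hs, Real.sqrt_eq_rpow, ← Real.rpow_one_add' (by linarith) (by norm_num)]
    norm_num
  rw [← hs, ← hW, hl32] at hR
  have hR0 : 0 ≤ R := le_trans (by positivity) hR
  have hXR : ((h * l : ℕ) * (3 * s * (11 * B)) + 3 * s * (24 * (Q : ℝ) ^ 3 / B)) / W ≤ 72 * R := by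
    have e1 : ((h * l : ℕ) * (3 * s * (11 * B)) + 3 * s * (24 * (Q : ℝ) ^ 3 / B)) / W =
        33 * (h * (l * s) * B / W) + 72 * (s * W / B) := by
      rw [← hWW]
      push_cast
      field_simp
      ring
    rw [e1]
    have e2 : 0 ≤ h * (l * s) * B / W := by positivity
    linarith
  -- existence
  have hex : ∀ p : ℤ × ℤ × ℤ × ℤ, ∃ (v : V4) (w : OO), NP (q ^ 3) B h a.1 a.2.1 a.2.2 p →
      VNB_R k g (ε : OO) (((h : ℤ) * (l : ℤ) : ℤ) : OO) p (va4 v) w (vz4 v) ∧ InG δ r v ∧ nrm 1 v ≤ C * (72 * R) := by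
    intro p
    by_cases hp : NP (q ^ 3) B h a.1 a.2.1 a.2.2 p
    swap
    · exact ⟨0, 0, fun h3 => absurd h3 hp⟩
    have hd1 := hp.P1
    have hd2 := hp.P2
    have hqc : ((q ^ 3 : ℕ) : ℤ) = (k.norm.natAbs : ℤ) ^ 3 := by
      rw [hq]
      push_cast
      rfl
    rw [hqc] at hd1 hd2
    obtain ⟨D1, D2⟩ := hVDM k g ε l h a.1 a.2.1 a.2.2 p.2.2.1 p.2.2.2 p.1 p.2.1 hKG.co hKG.n10 hε hgε hRM hd1 hd2
    obtain ⟨e, w, z, r1, r2, r3, r4⟩ := hVDC k 1 (g * (⟨p.1, p.2.1⟩ : OO)) ((ε : OO) * g * (ph * p.2.2.1 - p.2.2.2)) (h * l)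
      hk0 hKG.co (by rw [star_one]; exact isCoprime_one_right) D1 D2
    rw [one_mul] at r4
    rw [star_one, one_mul, mul_one] at r3
    rw [mul_one] at r4
    refine ⟨(e.re, e.im, z.re, z.im), w, fun _ => ⟨⟨r1, r2, r3, r4⟩, ?_, ?_⟩⟩
    · refine VNB_InG (t := (l : ℤ)) (U := g * (⟨p.1, p.2.1⟩ : OO)) (k := k) hδh
        (Nat.Coprime.coprime_dvd_right ⟨k.norm.natAbs, by rw [mk, mul_comm]⟩ hδc) hδr ?_
      show _ = FF k e z
      rw [← r4]
      push_cast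
      rfl
    · -- sizes
      have hBm : ∀ x : ℤ, |x| * B ≤ ((q ^ 3 : ℕ) : ℤ) → |(x : ℝ)| ≤ 8 * (Q : ℝ) ^ 3 / B := by
        intro x hx
        rw [le_div_iff₀ (by linarith)]
        have h3 : |(x : ℝ)| * B ≤ (q : ℝ) ^ 3 := by exact_mod_cast hx
        have h4 : (q : ℝ) ^ 3 ≤ (2 * (Q : ℝ)) ^ 3 := by
          have h5 : (q : ℝ) ≤ 2 * Q := by exact_mod_cast hqQ
          exact pow_le_pow_left₀ (by positivity) h5 3
        linarith [h3, h4, (by ring : (2 * (Q : ℝ)) ^ 3 = 8 * (Q : ℝ) ^ 3)]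
      have hu : |(p.1 : ℝ)| ≤ 4 * B := by exact_mod_cast hp.u
      have hv : |(p.2.1 : ℝ)| ≤ 4 * B := by exact_mod_cast hp.v
      have hP1 := hBm _ hp.s1
      have hP2 := hBm _ hp.s2
      obtain ⟨ua, ub⟩ := VNB_lin (4 * B) (4 * B) (11 * B) p.1 p.2.1 hu hv (by linarith)
      have hX0 : 0 ≤ 8 * (Q : ℝ) ^ 3 / B := by positivity
      have hva1 : ∀ x : OO, va ((ε : OO) * x) = ε * va x := fun x => by rw [hma, (hin ε).1]
      have hvb1 : ∀ x : OO, vb ((ε : OO) * x) = ε * vb x := fun x => by rw [hmb, (hin ε).2]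
      have hεr : |(ε : ℝ)| = 1 := by
        rcases hε with rfl | rfl <;> simp
      have hPa : |va (ph * (p.2.2.1 : OO) - (p.2.2.2 : OO))| ≤ 24 * (Q : ℝ) ^ 3 / B := by
        rw [(had _ _).2.1, hma, (hin _).1, (hin _).1]
        have h3 := (VNB_lin (8 * (Q : ℝ) ^ 3 / B) (8 * (Q : ℝ) ^ 3 / B) (24 * (Q : ℝ) ^ 3 / B) (-p.2.2.2) p.2.2.1
          (by push_cast; rw [abs_neg]; exact hP2) hP1 (by
            have : 24 * (Q : ℝ) ^ 3 / B = 3 * (8 * (Q : ℝ) ^ 3 / B) := by ring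
            rw [this]
            linarith)).1
        have e1 : va ph * (p.2.2.1 : ℝ) - (p.2.2.2 : ℝ) = ((-p.2.2.2 : ℤ) : ℝ) + (p.2.2.1 : ℝ) * ((1 + √5) / 2) := by
          simp only [va, ph]
          push_cast
          ring
        rw [e1]
        exact h3
      have hPb : |vb (ph * (p.2.2.1 : OO) - (p.2.2.2 : OO))| ≤ 24 * (Q : ℝ) ^ 3 / B := by
        rw [(had _ _).2.2.2, hmb, (hin _).2, (hin _).2]
        have h3 := (VNB_lin (8 * (Q : ℝ) ^ 3 / B) (8 * (Q : ℝ) ^ 3 / B) (24 * (Q : ℝ) ^ 3 / B) (-p.2.2.2) p.2.2.1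
          (by push_cast; rw [abs_neg]; exact hP2) hP1 (by
            have : 24 * (Q : ℝ) ^ 3 / B = 3 * (8 * (Q : ℝ) ^ 3 / B) := by ring
            rw [this]
            linarith)).2
        have e1 : vb ph * (p.2.2.1 : ℝ) - (p.2.2.2 : ℝ) = ((-p.2.2.2 : ℤ) : ℝ) + (p.2.2.1 : ℝ) * ((1 - √5) / 2) := by
          simp only [vb, ph]
          push_cast
          ring
        rw [e1]
        exact h3
      have hone : va (1 : OO) = 1 ∧ vb (1 : OO) = 1 := by
        have := hin 1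
        push_cast at this
        exact this
      rw [← hs] at hga hgb
      obtain ⟨s1, s2, s3, s4⟩ := hS Q (h * l) 1 (3 * s * (11 * B)) (3 * s * (24 * (Q : ℝ) ^ 3 / B)) k 1
        (g * (⟨p.1, p.2.1⟩ : OO)) ((ε : OO) * g * (ph * p.2.2.1 - p.2.2.2)) e w z hKG hQ le_rfl (by positivity) (by positivity)
        (by rw [hone.1]; norm_num) (by rw [hone.2]; norm_num)
        (by rw [hma, abs_mul]; exact mul_le_mul hga ua (abs_nonneg _) (by positivity))
        (by rw [hmb, abs_mul]; exact mul_le_mul hgb ub (abs_nonneg _) (by positivity))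
        (by rw [mul_assoc, hva1, hma, abs_mul, hεr, one_mul, abs_mul]; exact mul_le_mul hga hPa (abs_nonneg _) (by positivity))
        (by rw [mul_assoc, hvb1, hmb, abs_mul, hεr, one_mul, abs_mul]; exact mul_le_mul hgb hPb (abs_nonneg _) (by positivity))
        (by push_cast at r1 ⊢; exact r1) (by push_cast at r2 ⊢; exact r2) (by rw [star_one, one_mul, mul_one]; exact r3)
      rw [← hW, one_mul] at s3 s4
      rw [← hW] at s1 s2
      have hb : C * (((h * l : ℕ) * (3 * s * (11 * B)) + 3 * s * (24 * (Q : ℝ) ^ 3 / B)) / W) ≤ C * (72 * R) :=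
        mul_le_mul_of_nonneg_left hXR (by linarith)
      obtain ⟨t1, t2⟩ := VNB_sizes e _ (s1.trans hb) (s2.trans hb)
      obtain ⟨t3, t4⟩ := VNB_sizes z _ (s3.trans hb) (s4.trans hb)
      unfold nrm
      exact max_le (max_le t1 t2) (max_le t3 t4)
  choose L w hL using hex
  have hG := hVGN (q ^ 3) B h δ r a.1 a.2.1 a.2.2 (C * (72 * R)) L (Nat.one_le_iff_ne_zero.2 (by positivity)) hB hh hδ1
    (by positivity) (fun p hp => ⟨(hL p hp).2.1, (hL p hp).2.2⟩) (by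
      intro n p hp
      have hmem : ∑ i, n i • ((p i, va4 (L (p i)), w (p i), vz4 (L (p i))) : (ℤ × ℤ × ℤ × ℤ) × OO × OO × OO) ∈
          VNB_T k g (ε : OO) (((h : ℤ) * (l : ℤ) : ℤ) : OO) :=
        sum_mem fun i _ => zsmul_mem (show _ ∈ VNB_T k g (ε : OO) (((h : ℤ) * (l : ℤ) : ℤ) : OO) from (hL (p i) (hp i)).1) (n i)
      have h3 := VNB_inj hk0 hg0 hE0 hH0 (show VNB_R k g (ε : OO) (((h : ℤ) * (l : ℤ) : ℤ) : OO) _ _ _ _ from hmem)
      have hA : ∀ x y : V4, va4 (x + y) = va4 x + va4 y := fun x y => by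
        ext <;> simp [va4]
      have hZ : ∀ x y : V4, vz4 (x + y) = vz4 x + vz4 y := fun x y => by
        ext <;> simp [vz4]
      obtain ⟨A, hA'⟩ : ∃ A : V4 →+ OO, ∀ x, A x = va4 x := ⟨AddMonoidHom.mk' va4 hA, fun _ => rfl⟩
      obtain ⟨Z, hZ'⟩ : ∃ Z : V4 →+ OO, ∀ x, Z x = vz4 x := ⟨AddMonoidHom.mk' vz4 hZ, fun _ => rfl⟩
      have e1 : (∑ i, n i • ((p i, va4 (L (p i)), w (p i), vz4 (L (p i))) : (ℤ × ℤ × ℤ × ℤ) × OO × OO × OO)).1 =
          ∑ i, n i • p i := by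
        rw [Prod.fst_sum]
        rfl
      have e2 : (∑ i, n i • ((p i, va4 (L (p i)), w (p i), vz4 (L (p i))) : (ℤ × ℤ × ℤ × ℤ) × OO × OO × OO)).2.1 =
          va4 (∑ i, n i • L (p i)) := by
        rw [Prod.snd_sum, Prod.fst_sum, ← hA', map_sum]
        refine Finset.sum_congr rfl fun i _ => ?_
        rw [map_zsmul, hA']
        rfl
      have e3 : (∑ i, n i • ((p i, va4 (L (p i)), w (p i), vz4 (L (p i))) : (ℤ × ℤ × ℤ × ℤ) × OO × OO × OO)).2.2.2 =
          vz4 (∑ i, n i • L (p i)) := by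
        rw [Prod.snd_sum, Prod.snd_sum, Prod.snd_sum, ← hZ', map_sum]
        refine Finset.sum_congr rfl fun i _ => ?_
        rw [map_zsmul, hZ']
        rfl
      rw [e1, e2, e3] at h3
      rw [← h3]
      constructor
      · intro h4
        rw [h4]
        exact ⟨by ext <;> simp [va4], by ext <;> simp [vz4]⟩
      · rintro ⟨h4, h5⟩
        have a1 := congrArg QuadraticAlgebra.re h4
        have a2 := congrArg QuadraticAlgebra.im h4
        have a3 := congrArg QuadraticAlgebra.re h5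
        have a4 := congrArg QuadraticAlgebra.im h5
        exact Prod.ext a1 (Prod.ext a2 (Prod.ext a3 a4)))
  have hnear : nearG B h k a = nearPts B B (h * a.1 / ((q ^ 3 : ℕ) : ℝ)) (h * a.2.1 / ((q ^ 3 : ℕ) : ℝ))
      (h * a.2.2 / ((q ^ 3 : ℕ) : ℝ)) := by
    rw [nearG, hq]
    push_cast
    rfl
  rw [← hnear] at hG
  have hlam : 0 < lamb 1 δ r := by
    obtain ⟨v, hv, -, hvl⟩ := (hN4 1 δ r le_rfl hδ1).1
    rw [← hvl]
    have h3 : (0 : ℝ) ≤ nrm 1 v := by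
      unfold nrm
      exact (abs_nonneg _).trans ((le_max_left _ _).trans (le_max_left _ _))
    refine lt_of_le_of_ne h3 fun h4 => hv ?_
    have h5 : nrm 1 v ≤ 0 := h4.symm.le
    unfold nrm at h5
    have b1 := (max_le_iff.1 (max_le_iff.1 h5).1).1
    have b2 := (max_le_iff.1 (max_le_iff.1 h5).1).2
    have b3 := (max_le_iff.1 (max_le_iff.1 h5).2).1
    have b4 := (max_le_iff.1 (max_le_iff.1 h5).2).2
    have c1 : v.1 = 0 := by exact_mod_cast abs_nonpos_iff.1 b1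
    have c2 : v.2.1 = 0 := by exact_mod_cast abs_nonpos_iff.1 b2
    have c3 : v.2.2.1 = 0 := by exact_mod_cast abs_nonpos_iff.1 b3
    have c4 : v.2.2.2 = 0 := by exact_mod_cast abs_nonpos_iff.1 b4
    exact Prod.ext c1 (Prod.ext c2 (Prod.ext c3 c4))
  obtain ⟨Y, hY⟩ : ∃ Y : ℝ, Y = R / lamb 1 δ r := ⟨_, rfl⟩
  have hY0 : 0 ≤ Y := by
    rw [hY]
    positivity
  rw [← hY]
  have h1Y : 1 ≤ (1 + Y) ^ 3 := one_le_pow₀ (by linarith)
  have hC3 : 0 ≤ (432 * C) ^ 3 := by positivity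
  rcases hG with hG | hG
  · calc ((nearG B h k a).card : ℝ) ≤ 234256 := hG
      _ ≤ (234256 + (432 * C) ^ 3) * 1 := by linarith
      _ ≤ (234256 + (432 * C) ^ 3) * (1 + Y) ^ 3 := mul_le_mul_of_nonneg_left h1Y (by linarith)
  · have e1 : 6 * (C * (72 * R)) / lamb 1 δ r = 432 * C * Y := by
      rw [hY]
      ring
    rw [e1] at hG
    calc ((nearG B h k a).card : ℝ) ≤ (1 + 432 * C * Y) ^ 3 := hG
      _ ≤ (432 * C * (1 + Y)) ^ 3 := by
          refine pow_le_pow_left₀ (by positivity) ?_ 3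
          have : 432 * C * (1 + Y) = 432 * C + 432 * C * Y := by ring
          rw [this]
          linarith
      _ = (432 * C) ^ 3 * (1 + Y) ^ 3 := by ring
      _ ≤ (234256 + (432 * C) ^ 3) * (1 + Y) ^ 3 := mul_le_mul_of_nonneg_right (by linarith) (by linarith)

end Pool.Agent.RL
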